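import Pool.Agent.N855.DI.Sel
import Pool.Agent.R395.FT.Alg
import Pool.Agent.W307.RT.Tors
import Pool.Agent.W513.FK.Parf

/-!
# The partial algorithm, with the intrinsic criterion
-/

set_option autoImplicit false

namespace Pool.Agent.N855.DI

open Finset Filter Topology
open Pool.Agent.TH841.SH.D (Sha)
open Pool.Agent.W307.RT (Sh)

/-- the set of the rational zeros of `f = ∑ L_(i,j) x^i y^j` -/
def Zeros (L : List (List ℤ)) : Set (ℚ × ℚ) := {p : ℚ × ℚ |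
  ∑ i ∈ Finset.range L.length, ∑ j ∈ Finset.range (L.getD i []).length,
    (((L.getD i []).getD j 0 : ℤ) : ℚ) * p.1 ^ i * p.2 ^ j = 0}

/-- the polynomial `y² - x³ - A x - B` -/
def weier (A B : ℤ) : List (List ℤ) := [[-B, 0, 1], [-A], [], [-1]]

/-- finitely many rational points and no element of order two of `Ш` -/
def RZ (A B : ℤ) : Prop :=
  Finite (Sh A B).toAffine.Point ∧ ∀ x : Sha (Sh A B), 2 • x = 0 → x = 0

theorem zeros_eq {e : ℤ × ℤ × ℤ} (hs : e.1 + e.2.1 + e.2.2 = 0) :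
    Zeros (Pool.Agent.R395.FT.wei e) = Pool.Agent.R395.FT.Pts e.1 e.2.1 e.2.2 := by
  obtain ⟨e1, e2, e3⟩ := e
  have hs' : (e1 : ℚ) + e2 + e3 = 0 := by
    have : e1 + e2 + e3 = 0 := hs
    exact_mod_cast this
  ext ⟨x, y⟩
  unfold Zeros Pool.Agent.R395.FT.wei Pool.Agent.R395.FT.weier Pool.Agent.R395.FT.Pts
  simp only [Set.mem_ofPred_eq, List.length_cons, List.length_nil, Finset.sum_range_succ,
    Finset.sum_range_zero, List.getD_cons_zero, List.getD_cons_succ, List.getD_nil]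
  push_cast
  constructor
  · intro h
    linear_combination h + x ^ 2 * hs'
  · intro h
    linear_combination h - x ^ 2 * hs'

/-- three integer roots -/
def Rts (A B : ℤ) : Prop := 4 * A ^ 3 + 27 * B ^ 2 ≠ 0 ∧ ∃ e1 e2 e3 : ℤ,
  ∀ x : ℤ, x ^ 3 + A * x + B = (x - e1) * (x - e2) * (x - e3)

/-- the roots -/
theorem exists_roots {A B : ℤ} (h : Rts A B) : ∃ e : ℤ × ℤ × ℤ, Pool.Agent.R395.FT.Dis e ∧
    weier A B = Pool.Agent.R395.FT.wei e ∧
    ∀ x : ℤ, x ^ 3 + A * x + B = (x - e.1) * (x - e.2.1) * (x - e.2.2) := by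
  obtain ⟨hD, e1, e2, e3, hroot⟩ := h
  obtain ⟨hs, hA, hB⟩ := Pool.Agent.W402.FK.coef A B e1 e2 e3 hroot
  obtain ⟨h12, h13, h23⟩ := Pool.Agent.W402.FK.dist A B e1 e2 e3 hD hroot
  refine ⟨(e1, e2, e3), ⟨⟨h12, h13, h23⟩, hs⟩, ?_, hroot⟩
  unfold weier Pool.Agent.R395.FT.wei Pool.Agent.R395.FT.weier
  rw [hA, hB]

/-- the algorithm -/
theorem alg : ∃ φ : List (List ℤ) →. Bool, Partrec φ ∧
    (∀ L, ∀ r ∈ φ L, (r = true ↔ (Zeros L).Infinite)) ∧
    (∀ A B : ℤ, Rts A B → (false ∈ φ (weier A B) ↔ RZ A B)) ∧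
    (∀ A B : ℤ, Rts A B → (true ∈ φ (weier A B) ↔ (Zeros (weier A B)).Infinite)) := by
  obtain ⟨φ, hφ, hdom, hval⟩ := Pool.Agent.R395.FT.exists_alg
  -- soundness
  have hinf : ∀ L, Pool.Agent.R395.FT.PInf L → (Zeros L).Infinite := by
    intro L h
    obtain ⟨e, h1, rfl, h2⟩ := Pool.Agent.R395.FT.pInf_sound h
    rw [zeros_eq h1.2]
    exact h2
  have hfin : ∀ L, Pool.Agent.R395.FT.PFin L → ¬ (Zeros L).Infinite := by
    intro L h
    obtain ⟨e, h1, rfl, h2, -⟩ := Pool.Agent.R395.FT.pFin_sound h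
    rw [zeros_eq h1.2, Set.not_infinite]
    exact h2
  have hsound : ∀ L, ∀ r ∈ φ L, (r = true ↔ (Zeros L).Infinite) := by
    intro L r hr
    rcases hval L r hr with ⟨rfl, h⟩ | ⟨rfl, h⟩
    · exact ⟨fun _ => hinf L h, fun _ => rfl⟩
    · exact ⟨fun h' => Bool.noConfusion h', fun h' => absurd h' (hfin L h)⟩
  have hfalse : ∀ L, Pool.Agent.R395.FT.PFin L → false ∈ φ L := by
    intro L h
    obtain ⟨r, hr⟩ := Part.dom_iff_mem.1 ((hdom L).2 (Or.inr h))
    rcases hval _ _ hr with ⟨-, h1⟩ | ⟨h1, -⟩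
    · exact absurd (hinf _ h1) (hfin _ h)
    · rw [h1] at hr
      exact hr
  have htrue : ∀ L, Pool.Agent.R395.FT.PInf L → true ∈ φ L := by
    intro L h
    obtain ⟨r, hr⟩ := Part.dom_iff_mem.1 ((hdom L).2 (Or.inl h))
    rcases hval _ _ hr with ⟨h1, -⟩ | ⟨-, h1⟩
    · rw [h1] at hr
      exact hr
    · exact absurd (hinf _ h) (hfin _ h1)
  refine ⟨φ, hφ, hsound, fun A B hF => ?_, fun A B hF => ?_⟩
  · obtain ⟨e, h3, h4, h5⟩ := exists_roots hF
    rw [show RZ A B ↔ _ from (small_iff hF.1 h5).symm]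
    constructor
    · intro h
      rcases hval _ _ h with ⟨h1, -⟩ | ⟨-, h1⟩
      · exact Bool.noConfusion h1
      · obtain ⟨e, h2, h3, -, m, l, h4⟩ := Pool.Agent.R395.FT.pFin_sound h1
        exact Pool.Agent.R395.FT.few_sel hF.1 (Pool.Agent.R395.FT.root_of h2 h3) h4
    · rintro ⟨h1, h2⟩
      rw [h4]
      exact hfalse _ (Pool.Agent.R395.FT.pFin_complete h3 h5 h1 h2)
  · constructor
    · intro h
      exact (hsound _ _ h).1 rfl
    · intro h
      obtain ⟨e, h3, h4, -⟩ := exists_roots hF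
      rw [h4, zeros_eq h3.2] at h
      rw [h4]
      exact htrue _ (Pool.Agent.R395.FT.pInf_complete h3 h)

/-- the curve with full rational 2-torsion has three integer roots -/
theorem rts_of {A B : ℤ} (hD : 4 * A ^ 3 + 27 * B ^ 2 ≠ 0)
    (h : ∃ f : ZMod 2 × ZMod 2 →+ (Sh A B).toAffine.Point, Function.Injective f) : Rts A B := by
  have hT : Pool.Agent.W307.RT.HasT 2 (Sh A B) :=
    (Pool.Agent.W307.RT.tors_iff (G := (Sh A B).toAffine.Point) (m := 2)).2 h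
  obtain ⟨F, -, hF⟩ := Pool.Agent.W513.FK.parf
  obtain ⟨-, -, -, -, -, e1, e2, e3, hroot, -, -⟩ := hF (A, B) hD hT
  exact ⟨hD, e1, e2, e3, hroot⟩

end Pool.Agent.N855.DI
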