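import Pool.Agent.N803.GK.GR
import Pool.Agent.N747.SLX.SelQ
import Pool.Agent.Y667.BK.Fin

/-!
# The 2-Selmer group has at most four elements if and only if the rank is zero and `Ш[2] = 0`
-/

set_option autoImplicit false

namespace Pool.Agent.N855.DI

open Pool.Agent.TH841.SH (SelG LocC IsR isR_Sh)
open Pool.Agent.TH841.SH.D (Sha)
open Pool.Agent.W307.SE (SelR)
open Pool.Agent.W307.RT (Sh)

theorem finrank_zero {G : Type} [AddCommGroup G] (h : Finite G) : Module.finrank ℤ G = 0 := by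
  apply Module.finrank_eq_zero_iff_isTorsion.2
  intro x
  refine ⟨⟨(Nat.card G : ℤ), mem_nonZeroDivisors_of_ne_zero ?_⟩, ?_⟩
  · exact_mod_cast Nat.card_pos.ne'
  · show (Nat.card G : ℤ) • x = 0
    rw [natCast_zsmul, card_nsmul_eq_zero']

/-- for the curves with three rational points of order two: the `2`-Selmer group has at most four
elements if and only if there are finitely many rational points and `Ш[2] = 0` -/
theorem small_iff {A B e1 e2 e3 : ℤ} (hD : 4 * A ^ 3 + 27 * B ^ 2 ≠ 0)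
    (h : ∀ x : ℤ, x ^ 3 + A * x + B = (x - e1) * (x - e2) * (x - e3)) :
    ((SelR A B).Finite ∧ (SelR A B).ncard ≤ 4) ↔
      (Finite (Sh A B).toAffine.Point ∧ ∀ x : Sha (Sh A B), 2 • x = 0 → x = 0) := by
  obtain ⟨d12, d13, d23⟩ := Pool.Agent.W402.FK.dist A B e1 e2 e3 hD h
  obtain ⟨hR, hG, hRG⟩ := Pool.Agent.N803.GK.t_GR A B e1 e2 e3 hD h
  obtain ⟨hfg, hs, hcard⟩ := Pool.Agent.N637.SLX.t_SELQ (Sh A B) e1 e2 e3 d12 d13 d23
    (isR_Sh h) hG
  have hc : Nat.card {z : ℤ × ℤ // z ∈ SelG e1 e2 e3} = (SelG e1 e2 e3).ncard := rfl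
  rw [hc, hRG] at hcard
  have hne : Nonempty {x : Sha (Sh A B) // 2 • x = 0} := ⟨⟨0, nsmul_zero 2⟩⟩
  have hpos : 0 < Nat.card {x : Sha (Sh A B) // 2 • x = 0} := Nat.card_pos
  constructor
  · rintro ⟨-, h4⟩
    rw [hcard] at h4
    have h1 : 0 < 2 ^ Module.finrank ℤ (Sh A B).toAffine.Point := by positivity
    have h2 : 2 ^ Module.finrank ℤ (Sh A B).toAffine.Point = 1 := by
      by_contra h2
      have h3 : 2 ≤ 2 ^ Module.finrank ℤ (Sh A B).toAffine.Point := by omega
      have h5 : 2 * (4 * 1) ≤ 2 ^ Module.finrank ℤ (Sh A B).toAffine.Point *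
          (4 * Nat.card {x : Sha (Sh A B) // 2 • x = 0}) :=
        Nat.mul_le_mul h3 (Nat.mul_le_mul_left 4 hpos)
      omega
    rw [h2] at h4
    have h0 : Module.finrank ℤ (Sh A B).toAffine.Point = 0 := by
      by_contra h0
      have := Nat.one_lt_two_pow h0
      omega
    refine ⟨Pool.Agent.Y667.BK.finite_of_rk hfg h0, fun x hx => ?_⟩
    have h6 : Nat.card {x : Sha (Sh A B) // 2 • x = 0} ≤ 1 := by omega
    have h7 : Subsingleton {x : Sha (Sh A B) // 2 • x = 0} := by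
      rw [← Finite.card_le_one_iff_subsingleton]
      exact h6
    have := h7.elim ⟨x, hx⟩ ⟨0, nsmul_zero 2⟩
    exact congrArg Subtype.val this
  · rintro ⟨hf, hx⟩
    refine ⟨hR, ?_⟩
    have h0 : Module.finrank ℤ (Sh A B).toAffine.Point = 0 := finrank_zero hf
    have h7 : Subsingleton {x : Sha (Sh A B) // 2 • x = 0} :=
      ⟨fun u v => Subtype.ext ((hx _ u.2).trans (hx _ v.2).symm)⟩
    have h6 : Nat.card {x : Sha (Sh A B) // 2 • x = 0} ≤ 1 :=
      Finite.card_le_one_iff_subsingleton.2 h7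
    rw [hcard, h0]
    omega

end Pool.Agent.N855.DI
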